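import Pool.Agent.W79.BP.Defs

/-!
# BP-B: few cycles
-/

set_option autoImplicit false

open scoped Classical

namespace Pool.Agent.W705.BP.PartB

open Pool.Agent.W79.BP

variable {n : ℕ}

theorem perm_app_inv (τ : Equiv.Perm (Fin n)) (u : Fin n) : τ (τ⁻¹ u) = u := by simp

theorem perm_inv_app (τ : Equiv.Perm (Fin n)) (u : Fin n) : τ⁻¹ (τ u) = u := by simp

theorem adj_iff {β : SimpleGraph (Fin n)} {τ : Equiv.Perm (Fin n)} (h : τ ∈ Au β) (u v : Fin n) :
    β.Adj (τ u) (τ v) ↔ β.Adj u v := by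
  have h1 := (Finset.mem_filter.1 h).2
  have h2 : (SimpleGraph.comap (⇑τ) β).Adj u v ↔ β.Adj u v := by rw [h1]
  exact h2

theorem inv_mem {β : SimpleGraph (Fin n)} {τ : Equiv.Perm (Fin n)} (h : τ ∈ Au β) : τ⁻¹ ∈ Au β := by
  refine Finset.mem_filter.2 ⟨Finset.mem_univ _, ?_⟩
  ext u v
  rw [SimpleGraph.comap_adj, ← adj_iff h, perm_app_inv, perm_app_inv]

theorem mem_ob {β : SimpleGraph (Fin n)} {x y : Fin n} : y ∈ ob β x ↔ ∃ τ ∈ Au β, τ x = y := by
  unfold ob
  simp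

theorem ob_symm {β : SimpleGraph (Fin n)} {x y : Fin n} (h : y ∈ ob β x) : x ∈ ob β y := by
  obtain ⟨τ, hτ, hxy⟩ := mem_ob.1 h
  refine mem_ob.2 ⟨τ⁻¹, inv_mem hτ, ?_⟩
  rw [← hxy, perm_inv_app]

theorem deg_eq {β : SimpleGraph (Fin n)} {x y : Fin n} (h : y ∈ ob β x) :
    (Finset.univ.filter (β.Adj x)).card = (Finset.univ.filter (β.Adj y)).card := by
  obtain ⟨τ, hτ, hxy⟩ := mem_ob.1 h
  refine Finset.card_bij (fun a _ => τ a) ?_ ?_ ?_
  · intro a ha
    simp only [Finset.mem_filter, Finset.mem_univ, true_and] at ha ⊢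
    rw [← hxy]
    exact (adj_iff hτ _ _).2 ha
  · intro a _ b _ hab
    exact τ.injective hab
  · intro c hc
    refine ⟨τ⁻¹ c, ?_, perm_app_inv _ _⟩
    simp only [Finset.mem_filter, Finset.mem_univ, true_and] at hc ⊢
    rw [← adj_iff hτ, perm_app_inv, hxy]
    exact hc

theorem mem_cy {σ : Equiv.Perm (Fin n)} {x y : Fin n} : y ∈ cy σ x ↔ σ.SameCycle x y := by
  unfold cy
  simp

theorem self_mem_cy (σ : Equiv.Perm (Fin n)) (x : Fin n) : x ∈ cy σ x :=
  mem_cy.2 (Equiv.Perm.SameCycle.refl σ x)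

theorem cy_pos (σ : Equiv.Perm (Fin n)) (x : Fin n) : 1 ≤ (cy σ x).card :=
  Finset.card_pos.2 ⟨x, self_mem_cy σ x⟩

theorem cy_eq {σ : Equiv.Perm (Fin n)} {x y : Fin n} (h : σ.SameCycle x y) : cy σ x = cy σ y := by
  ext z
  rw [mem_cy, mem_cy]
  exact ⟨fun h2 => h.symm.trans h2, fun h2 => h.trans h2⟩

/-- points in short cycles -/
noncomputable def Sh (σ : Equiv.Perm (Fin n)) (L : ℕ) : Finset (Fin n) :=
  Finset.univ.filter (fun x => (cy σ x).card < L)

/-- points in long cycles -/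
noncomputable def Lo (σ : Equiv.Perm (Fin n)) (L : ℕ) : Finset (Fin n) :=
  Finset.univ.filter (fun x => L ≤ (cy σ x).card)

theorem mem_Sh {σ : Equiv.Perm (Fin n)} {L : ℕ} {x : Fin n} :
    x ∈ Sh σ L ↔ (cy σ x).card < L := by unfold Sh; simp

theorem mem_Lo {σ : Equiv.Perm (Fin n)} {L : ℕ} {x : Fin n} :
    x ∈ Lo σ L ↔ L ≤ (cy σ x).card := by unfold Lo; simp

theorem Sh_card (σ : Equiv.Perm (Fin n)) (L : ℕ) : (Sh σ L).card ≤ (Cy σ).card * L := by
  have h1 : Sh σ L ⊆ ((Cy σ).filter (fun C => C.card < L)).biUnion id := by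
    intro x hx
    rw [Finset.mem_biUnion]
    refine ⟨cy σ x, Finset.mem_filter.2 ⟨?_, mem_Sh.1 hx⟩, self_mem_cy σ x⟩
    exact Finset.mem_image_of_mem _ (Finset.mem_univ x)
  refine (Finset.card_le_card h1).trans ?_
  refine (Finset.card_biUnion_le_card_mul _ _ L ?_).trans ?_
  · intro C hC
    exact (Finset.mem_filter.1 hC).2.le
  · exact Nat.mul_le_mul_right _ (Finset.card_filter_le _ _)

theorem Lo_card (σ : Equiv.Perm (Fin n)) (L : ℕ) : n = (Sh σ L).card + (Lo σ L).card := by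
  have h := Finset.card_filter_add_card_filter_not (s := (Finset.univ : Finset (Fin n)))
    (fun x => (cy σ x).card < L)
  rw [Finset.card_univ, Fintype.card_fin] at h
  unfold Sh Lo
  simp only [not_lt] at h
  exact h.symm

/-- long points whose orbit contains a short point -/
noncomputable def Mg (σ : Equiv.Perm (Fin n)) (L : ℕ) (β : SimpleGraph (Fin n)) : Finset (Fin n) :=
  (Lo σ L).filter (fun y => ∃ z ∈ Sh σ L, z ∈ ob β y)

theorem DD_le (σ : Equiv.Perm (Fin n)) (L s : ℕ) (hs : (Sh σ L).card ≤ s)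
    (β : SimpleGraph (Fin n))
    (hβ : ¬ ∃ x y, ¬ σ.SameCycle x y ∧ L ≤ (cy σ x).card ∧ L ≤ (cy σ y).card ∧ y ∈ ob β x) :
    DD β ≤ ∑ x ∈ Lo σ L, ((cy σ x).card - 1) + 2 * s * (Mg σ L β).card + s ^ 2 := by
  have hsplit : DD β = ∑ x ∈ Sh σ L, ((ob β x).card - 1) + ∑ x ∈ Lo σ L, ((ob β x).card - 1) := by
    unfold DD Sh Lo
    rw [← Finset.sum_filter_add_sum_filter_not Finset.univ (fun x => (cy σ x).card < L)]
    simp only [not_lt]
  have hSh : ∑ x ∈ Sh σ L, ((ob β x).card - 1) ≤ s * (s + (Mg σ L β).card) := by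
    calc ∑ x ∈ Sh σ L, ((ob β x).card - 1) ≤ ∑ _x ∈ Sh σ L, (s + (Mg σ L β).card) := by
          refine Finset.sum_le_sum fun x hx => ?_
          have h1 : ob β x ⊆ Sh σ L ∪ Mg σ L β := by
            intro y hy
            rw [Finset.mem_union]
            by_cases hc : (cy σ y).card < L
            · exact Or.inl (mem_Sh.2 hc)
            · refine Or.inr (Finset.mem_filter.2 ⟨mem_Lo.2 (not_lt.1 hc), x, hx, ob_symm hy⟩)
          have h2 := (Finset.card_le_card h1).trans (Finset.card_union_le _ _)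
          omega
      _ = (Sh σ L).card * (s + (Mg σ L β).card) := by rw [Finset.sum_const, smul_eq_mul]
      _ ≤ _ := Nat.mul_le_mul_right _ hs
  have hLo : ∑ x ∈ Lo σ L, ((ob β x).card - 1) ≤
      ∑ x ∈ Lo σ L, ((cy σ x).card - 1) + s * (Mg σ L β).card := by
    calc ∑ x ∈ Lo σ L, ((ob β x).card - 1) ≤
          ∑ x ∈ Lo σ L, (((cy σ x).card - 1) +
            (if ∃ z ∈ Sh σ L, z ∈ ob β x then s else 0)) := by
          refine Finset.sum_le_sum fun x hx => ?_
          have h1 : ob β x ⊆ cy σ x ∪ Sh σ L := by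
            intro y hy
            rw [Finset.mem_union, mem_cy, mem_Sh]
            by_contra hc
            rw [not_or, not_lt] at hc
            exact hβ ⟨x, y, hc.1, mem_Lo.1 hx, hc.2, hy⟩
          have hpos := cy_pos σ x
          split_ifs with h2
          · have h3 := (Finset.card_le_card h1).trans (Finset.card_union_le _ _)
            omega
          · have h4 : ob β x ⊆ cy σ x := by
              intro y hy
              rcases Finset.mem_union.1 (h1 hy) with h5 | h5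
              · exact h5
              · exact absurd ⟨y, h5, hy⟩ h2
            have h6 := Finset.card_le_card h4
            omega
      _ = _ := by
          rw [Finset.sum_add_distrib, ← Finset.sum_filter]
          unfold Mg
          rw [Finset.sum_const, smul_eq_mul, Nat.mul_comm]
  rw [hsplit]
  calc _ ≤ s * (s + (Mg σ L β).card) + (∑ x ∈ Lo σ L, ((cy σ x).card - 1) + s * (Mg σ L β).card) :=
        add_le_add hSh hLo
    _ = _ := by ring

theorem DD_le_sq (β : SimpleGraph (Fin n)) : DD β ≤ n ^ 2 := by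
  unfold DD
  calc ∑ x : Fin n, ((ob β x).card - 1) ≤ ∑ _x : Fin n, n := by
        refine Finset.sum_le_sum fun x _ => ?_
        have := Finset.card_le_univ (ob β x)
        rw [Fintype.card_fin] at this
        omega
    _ = n ^ 2 := by simp [sq]

/-- graphs for which `y` is merged with a short point -/
noncomputable def cnt (σ : Equiv.Perm (Fin n)) (L : ℕ) (y : Fin n) : ℕ :=
  ((Fx σ).filter (fun β => ∃ z ∈ Sh σ L, z ∈ ob β y)).card

theorem sum_Mg (σ : Equiv.Perm (Fin n)) (L : ℕ) :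
    ∑ β ∈ Fx σ, (Mg σ L β).card = ∑ y ∈ Lo σ L, cnt σ L y := by
  unfold Mg cnt
  simp only [Finset.card_filter]
  exact Finset.sum_comm

theorem cnt_le (hB2 : S_B2) (σ : Equiv.Perm (Fin n)) (L s : ℕ) (hs1 : 1 ≤ s)
    (hs : (Sh σ L).card ≤ s) (y : Fin n) (hy : L ≤ (cy σ y).card)
    (hy2 : 4096 * s ^ 4 ≤ (cy σ y).card) : 32 * s * cnt σ L y ≤ (Fx σ).card := by
  have h1 : ∀ z ∈ Sh σ L, (32 * s ^ 2) * ((Fx σ).filter (fun β =>
      ((Finset.univ.filter (β.Adj z)).card = (Finset.univ.filter (β.Adj y)).card))).card ≤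
      (Fx σ).card := by
    intro z hz
    have hne : ¬ σ.SameCycle z y := by
      intro h
      have := cy_eq h
      rw [mem_Sh, this] at hz
      omega
    have h2 := hB2 n σ z y hne
    set c := ((Fx σ).filter (fun β =>
      ((Finset.univ.filter (β.Adj z)).card = (Finset.univ.filter (β.Adj y)).card))).card with hc
    have h3 : (32 * s ^ 2) ^ 2 ≤ ((cy σ y).card - 1) / 2 := by
      rw [Nat.le_div_iff_mul_le (by norm_num)]
      have h4 : (32 * s ^ 2) ^ 2 * 2 = 2048 * s ^ 4 := by ring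
      rw [h4]
      have h5 : 1 ≤ s ^ 4 := Nat.one_le_pow _ _ hs1
      omega
    have h6 : (32 * s ^ 2 * c) ^ 2 ≤ (Fx σ).card ^ 2 := by
      calc (32 * s ^ 2 * c) ^ 2 = c ^ 2 * (32 * s ^ 2) ^ 2 := by ring
        _ ≤ c ^ 2 * (((cy σ y).card - 1) / 2) := Nat.mul_le_mul_left _ h3
        _ ≤ _ := h2
    exact (Nat.pow_le_pow_iff_left (by norm_num)).1 h6
  have h7 : cnt σ L y ≤ ∑ z ∈ Sh σ L, ((Fx σ).filter (fun β =>
      ((Finset.univ.filter (β.Adj z)).card = (Finset.univ.filter (β.Adj y)).card))).card := by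
    unfold cnt
    refine (Finset.card_le_card ?_).trans Finset.card_biUnion_le
    intro β hβ
    rw [Finset.mem_filter] at hβ
    obtain ⟨hF, z, hz, hzy⟩ := hβ
    rw [Finset.mem_biUnion]
    exact ⟨z, hz, Finset.mem_filter.2 ⟨hF, (deg_eq hzy).symm⟩⟩
  have h8 : (32 * s ^ 2) * cnt σ L y ≤ s * (Fx σ).card := by
    calc (32 * s ^ 2) * cnt σ L y ≤ (32 * s ^ 2) * ∑ z ∈ Sh σ L, ((Fx σ).filter (fun β =>
          ((Finset.univ.filter (β.Adj z)).card = (Finset.univ.filter (β.Adj y)).card))).card :=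
          Nat.mul_le_mul_left _ h7
      _ ≤ ∑ _z ∈ Sh σ L, (Fx σ).card := by
          rw [Finset.mul_sum]
          exact Finset.sum_le_sum h1
      _ = (Sh σ L).card * (Fx σ).card := by rw [Finset.sum_const, smul_eq_mul]
      _ ≤ _ := Nat.mul_le_mul_right _ hs
  have h9 : s * (32 * s * cnt σ L y) ≤ s * (Fx σ).card := by
    calc s * (32 * s * cnt σ L y) = (32 * s ^ 2) * cnt σ L y := by ring
      _ ≤ _ := h8
  exact Nat.le_of_mul_le_mul_left h9 hs1

theorem sum_cnt (hB2 : S_B2) (σ : Equiv.Perm (Fin n)) (L s R : ℕ) (hs1 : 1 ≤ s)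
    (hs : (Sh σ L).card ≤ s) (hR : (Cy σ).card ≤ R) :
    32 * s * ∑ y ∈ Lo σ L, cnt σ L y ≤
      (32 * s * (R * (4096 * s ^ 4)) + n) * (Fx σ).card := by
  have hF : ∀ y, cnt σ L y ≤ (Fx σ).card := fun y => Finset.card_filter_le _ _
  have h1 : ∀ y ∈ Lo σ L, 32 * s * cnt σ L y ≤
      (if (cy σ y).card < 4096 * s ^ 4 then 32 * s * (Fx σ).card else 0) + (Fx σ).card := by
    intro y hy
    split_ifs with h
    · exact (Nat.mul_le_mul_left _ (hF y)).trans (Nat.le_add_right _ _)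
    · rw [zero_add]
      exact cnt_le hB2 σ L s hs1 hs y (mem_Lo.1 hy) (not_lt.1 h)
  rw [Finset.mul_sum]
  refine (Finset.sum_le_sum h1).trans ?_
  rw [Finset.sum_add_distrib, ← Finset.sum_filter, Finset.sum_const, Finset.sum_const, smul_eq_mul,
    smul_eq_mul]
  have h2 : ((Lo σ L).filter (fun y => (cy σ y).card < 4096 * s ^ 4)).card ≤
      R * (4096 * s ^ 4) := by
    calc _ ≤ (Sh σ (4096 * s ^ 4)).card := by
          refine Finset.card_le_card fun y hy => ?_
          exact mem_Sh.2 (Finset.mem_filter.1 hy).2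
      _ ≤ (Cy σ).card * (4096 * s ^ 4) := Sh_card σ _
      _ ≤ _ := Nat.mul_le_mul_right _ hR
  have h3 : (Lo σ L).card ≤ n := by
    have := Lo_card σ L
    omega
  calc _ ≤ (R * (4096 * s ^ 4)) * (32 * s * (Fx σ).card) + n * (Fx σ).card :=
        add_le_add (Nat.mul_le_mul_right _ h2) (Nat.mul_le_mul_right _ h3)
    _ = _ := by ring

theorem bad_le (hB1 : S_B1) (σ : Equiv.Perm (Fin n)) :
    ((Fx σ).filter (fun β => ∃ x y, ¬ σ.SameCycle x y ∧ 4 * (24 * b n) ^ 2 ≤ (cy σ x).card ∧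
      4 * (24 * b n) ^ 2 ≤ (cy σ y).card ∧ y ∈ ob β x)).card * n ^ 2 ≤ (Fx σ).card := by
  have hb : 1 ≤ b n := by unfold b; omega
  have h1 := hB1 n σ (24 * b n) (by omega)
  set c := ((Fx σ).filter (fun β => ∃ x y, ¬ σ.SameCycle x y ∧
      4 * (24 * b n) ^ 2 ≤ (cy σ x).card ∧
      4 * (24 * b n) ^ 2 ≤ (cy σ y).card ∧ y ∈ ob β x)).card with hc
  have h2 : n ≤ 2 ^ b n := by
    unfold b
    exact (Nat.lt_pow_succ_log_self (by norm_num) n).le
  have h3 : 24 * b n * (24 * b n) / 8 = 72 * (b n) ^ 2 := by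
    have : 24 * b n * (24 * b n) = 8 * (72 * (b n) ^ 2) := by ring
    rw [this, Nat.mul_div_cancel_left _ (by norm_num)]
  rw [h3] at h1
  have h4 : n ^ (1 + 2 * (24 * b n)) * n ^ 2 ≤ 2 ^ (72 * (b n) ^ 2) := by
    calc n ^ (1 + 2 * (24 * b n)) * n ^ 2 = n ^ (3 + 48 * b n) := by
          rw [← pow_add]
          congr 1
          ring
      _ ≤ (2 ^ b n) ^ (3 + 48 * b n) := Nat.pow_le_pow_left h2 _
      _ = 2 ^ (b n * (3 + 48 * b n)) := by rw [← pow_mul]
      _ ≤ _ := by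
          apply Nat.pow_le_pow_right (by norm_num)
          nlinarith
  have h5 : 2 ^ (72 * (b n) ^ 2) * (c * n ^ 2) ≤ 2 ^ (72 * (b n) ^ 2) * (Fx σ).card := by
    calc 2 ^ (72 * (b n) ^ 2) * (c * n ^ 2) = c * 2 ^ (72 * (b n) ^ 2) * n ^ 2 := by ring
      _ ≤ n ^ (1 + 2 * (24 * b n)) * (Fx σ).card * n ^ 2 := Nat.mul_le_mul_right _ h1
      _ = n ^ (1 + 2 * (24 * b n)) * n ^ 2 * (Fx σ).card := by ring
      _ ≤ _ := Nat.mul_le_mul_right _ h4
  exact Nat.le_of_mul_le_mul_left h5 (by positivity)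

theorem hh_ge (σ : Equiv.Perm (Fin n)) (L : ℕ) (hL : 2 ≤ L) :
    ∑ x ∈ Lo σ L, (cy σ x).card ≤ hh σ := by
  unfold hh
  refine Finset.sum_le_sum_of_subset ?_
  intro x hx
  rw [Finset.mem_filter]
  refine ⟨Finset.mem_univ _, fun hfix => ?_⟩
  have h1 : cy σ x = {x} := by
    ext y
    rw [mem_cy, Finset.mem_singleton]
    constructor
    · intro h
      have h2 := (Equiv.Perm.SameCycle.eq_of_left h hfix)
      exact h2.symm
    · rintro rfl
      exact Equiv.Perm.SameCycle.refl σ _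
  have h3 := mem_Lo.1 hx
  rw [h1, Finset.card_singleton] at h3
  omega

theorem main : S_B1 → S_B2 → S_LOG → S_B := by
  intro hB1 hB2 hLOG
  obtain ⟨n0, hn0⟩ := hLOG (16 * 368640 + 32 * 368640 * (160 * (4096 * 368640 ^ 4)) +
    16 * (368640 ^ 2 + 1)) 16
  refine ⟨n0, fun n hn σ hσ => ?_⟩
  have hlog := hn0 n hn
  have hb : 1 ≤ b n := by unfold b; omega
  set B := b n with hB
  set L := 4 * (24 * B) ^ 2 with hL
  set R := 160 * B with hR
  set s := R * L with hs
  have hs' : s = 368640 * B ^ 3 := by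
    rw [hs, hR, hL]; ring
  have hs1 : 1 ≤ s := by
    rw [hs']
    have := Nat.one_le_pow 3 B hb
    omega
  have hSh : (Sh σ L).card ≤ s := (Sh_card σ L).trans (Nat.mul_le_mul_right _ hσ.le)
  set F := (Fx σ).card with hF
  set W := ∑ x ∈ Lo σ L, ((cy σ x).card - 1) with hW
  set bad : SimpleGraph (Fin n) → Prop := fun β => ∃ x y, ¬ σ.SameCycle x y ∧
    L ≤ (cy σ x).card ∧ L ≤ (cy σ y).card ∧ y ∈ ob β x with hbad
  -- the sum of DD
  have h1 : ∑ β ∈ Fx σ, DD β ≤ ∑ β ∈ Fx σ, (W + 2 * s * (Mg σ L β).card + s ^ 2) + F := by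
    calc ∑ β ∈ Fx σ, DD β ≤ ∑ β ∈ Fx σ, ((W + 2 * s * (Mg σ L β).card + s ^ 2) +
          (if bad β then n ^ 2 else 0)) := by
          refine Finset.sum_le_sum fun β hβ => ?_
          split_ifs with hc
          · exact (DD_le_sq β).trans (Nat.le_add_left _ _)
          · rw [add_zero]
            exact DD_le σ L s hSh β hc
      _ = ∑ β ∈ Fx σ, (W + 2 * s * (Mg σ L β).card + s ^ 2) +
          ((Fx σ).filter bad).card * n ^ 2 := by
          rw [Finset.sum_add_distrib, ← Finset.sum_filter, Finset.sum_const, smul_eq_mul]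
      _ ≤ _ := Nat.add_le_add_left (bad_le hB1 σ) _
  have h2 : ∑ β ∈ Fx σ, (W + 2 * s * (Mg σ L β).card + s ^ 2) =
      F * W + 2 * s * ∑ y ∈ Lo σ L, cnt σ L y + F * s ^ 2 := by
    rw [Finset.sum_add_distrib, Finset.sum_add_distrib, Finset.sum_const, Finset.sum_const,
      smul_eq_mul, smul_eq_mul, ← Finset.mul_sum, sum_Mg]
  have h3 := sum_cnt hB2 σ L s R hs1 hSh hσ.le
  have h4 : W + (Lo σ L).card ≤ hh σ := by
    have h5 : W + (Lo σ L).card = ∑ x ∈ Lo σ L, (cy σ x).card := by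
      rw [Finset.card_eq_sum_ones, hW, ← Finset.sum_add_distrib]
      refine Finset.sum_congr rfl fun x _ => ?_
      have := cy_pos σ x
      omega
    rw [h5]
    refine hh_ge σ L ?_
    rw [hL]
    nlinarith
  have h6 := Lo_card σ L
  have h7 : 16 * s + 32 * s * (R * (4096 * s ^ 4)) + 16 * (s ^ 2 + 1) ≤ n := by
    refine le_trans ?_ hlog
    have p3 : B ^ 3 ≤ B ^ 16 := Nat.pow_le_pow_right hb (by norm_num)
    have p6 : B ^ 6 ≤ B ^ 16 := Nat.pow_le_pow_right hb (by norm_num)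
    have p0 : 1 ≤ B ^ 16 := Nat.one_le_pow _ _ hb
    calc 16 * s + 32 * s * (R * (4096 * s ^ 4)) + 16 * (s ^ 2 + 1)
        = 16 * 368640 * B ^ 3 + 32 * 368640 * (160 * (4096 * 368640 ^ 4)) * B ^ 16 +
          16 * (368640 ^ 2 * B ^ 6 + 1) := by
          rw [hs', hR]; ring
      _ ≤ 16 * 368640 * B ^ 16 + 32 * 368640 * (160 * (4096 * 368640 ^ 4)) * B ^ 16 +
          16 * (368640 ^ 2 * B ^ 16 + B ^ 16) := by gcongr
      _ = _ := by ring
  set T := ∑ y ∈ Lo σ L, cnt σ L y with hT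
  set P := 32 * s * (R * (4096 * s ^ 4)) with hP
  have h8 : 16 * ∑ β ∈ Fx σ, DD β ≤ 16 * (F * W) + (P + n) * F + 16 * (F * s ^ 2) + 16 * F := by
    have h9 : 16 * ∑ β ∈ Fx σ, DD β ≤ 16 * (F * W + 2 * s * T + F * s ^ 2 + F) := by
      rw [← h2]
      exact Nat.mul_le_mul_left _ h1
    have h10 : 16 * (F * W + 2 * s * T + F * s ^ 2 + F) =
        16 * (F * W) + 32 * s * T + 16 * (F * s ^ 2) + 16 * F := by ring
    rw [h10] at h9
    refine h9.trans ?_
    have h3' : 32 * s * T ≤ (P + n) * F := h3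
    omega
  have h11 : 16 * (W * F) + 16 * ((Lo σ L).card * F) ≤ 16 * (hh σ * F) := by
    have := Nat.mul_le_mul_right F h4
    rw [add_mul] at this
    omega
  have h12 : 16 * (n * F) ≤ 16 * (s * F) + 16 * ((Lo σ L).card * F) := by
    have h13 : n ≤ s + (Lo σ L).card := by omega
    have := Nat.mul_le_mul_right F h13
    rw [add_mul] at this
    omega
  have h14 : 16 * (s * F) + P * F + 16 * (s ^ 2 * F) + 16 * F ≤ n * F := by
    have := Nat.mul_le_mul_right F h7
    calc 16 * (s * F) + P * F + 16 * (s ^ 2 * F) + 16 * F =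
        (16 * s + P + 16 * (s ^ 2 + 1)) * F := by ring
      _ ≤ _ := this
  have e1 : F * W = W * F := Nat.mul_comm _ _
  have e2 : F * s ^ 2 = s ^ 2 * F := Nat.mul_comm _ _
  have e3 : (P + n) * F = P * F + n * F := add_mul _ _ _
  have e4 : 2 * hh σ * F = 2 * (hh σ * F) := Nat.mul_assoc _ _ _
  rw [e1, e2, e3] at h8
  rw [e4]
  omega

end Pool.Agent.W705.BP.PartB
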